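import Pool.Agent.Work.MP_a6e60d_ag.Gal.Res

/-!
# Extension of scalars for module objects: the left adjoint of restriction
-/

open CategoryTheory Limits

attribute [-instance] CategoryTheory.catToReflQuiver

namespace Orl.Gal

open Orl.LF

universe w v' u'

attribute [local instance] Abelian.hasFiniteBiproducts

variable {k : Type*} [Field k] {E : Type*} {K : Type w} [Field E] [Field K] [Algebra k E]
  [Algebra k K] [Algebra E K] [IsScalarTower k E K]
variable {C : Type u'} [Category.{v'} C]

section res

variable [Preadditive C] [Linear k C]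

variable (k E K C) in
/-- restriction of scalars from `K` to `E` -/
abbrev resE : ModObj k K C ⥤ ModObj k E C := resF C (IsScalarTower.toAlgHom k E K)

lemma resE_act (M : ModObj k K C) (e : E) :
    ((resE k E K C).obj M).act e = M.act (algebraMap E K e) := rfl

/-- the underlying morphism of a morphism to the restriction -/
def dn {M : ModObj k E C} {N : ModObj k K C} (f : M ⟶ (resE k E K C).obj N) : M.pt ⟶ N.pt :=
  ModObj.homPt f

@[reassoc]
lemma act_dn {M : ModObj k E C} {N : ModObj k K C} (f : M ⟶ (resE k E K C).obj N) (e : E) :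
    M.act e ≫ dn f = dn f ≫ N.act (algebraMap E K e) :=
  ModObj.act_homPt f e

lemma dn_ext {M : ModObj k E C} {N : ModObj k K C} {f g : M ⟶ (resE k E K C).obj N}
    (h : dn f = dn g) : f = g := ModObj.hom_ext h

lemma dn_comp_map {M : ModObj k E C} {N N' : ModObj k K C} (f : M ⟶ (resE k E K C).obj N)
    (g : N ⟶ N') : dn (f ≫ (resE k E K C).map g) = dn f ≫ ModObj.homPt g := rfl

lemma dn_comp {M M' : ModObj k E C} {N : ModObj k K C} (f : M ⟶ M')
    (g : M' ⟶ (resE k E K C).obj N) : dn (f ≫ g) = ModObj.homPt f ≫ dn g := rfl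

/-- morphisms to the restriction -/
def dnMk {M : ModObj k E C} {N : ModObj k K C} (f : M.pt ⟶ N.pt)
    (h : ∀ e : E, M.act e ≫ f = f ≫ N.act (algebraMap E K e)) : M ⟶ (resE k E K C).obj N :=
  ModObj.homMk (N := (resE k E K C).obj N) f h

@[simp] lemma dn_dnMk {M : ModObj k E C} {N : ModObj k K C} (f : M.pt ⟶ N.pt)
    (h : ∀ e : E, M.act e ≫ f = f ≫ N.act (algebraMap E K e)) : dn (dnMk f h) = f := rfl

/-- the maps `f ≫ N.act v` -/
def actHom {X : C} (N : ModObj k K C) (f : X ⟶ N.pt) : K →+ (X ⟶ N.pt) where
  toFun v := f ≫ N.act v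
  map_zero' := by rw [ModObj.act_zero, comp_zero]
  map_add' v v' := by rw [ModObj.act_add, Preadditive.comp_add]

lemma actHom_apply {X : C} (N : ModObj k K C) (f : X ⟶ N.pt) (v : K) :
    actHom N f v = f ≫ N.act v := rfl

lemma actHom_smul {M : ModObj k E C} {N : ModObj k K C} (f : M ⟶ (resE k E K C).obj N) (e : E)
    (v : K) : actHom N (dn f) (e • v) = M.act e ≫ actHom N (dn f) v := by
  rw [actHom_apply, actHom_apply, Algebra.smul_def, ModObj.act_mul, act_dn_assoc]

lemma actHom_mul {X : C} {N : ModObj k K C} (f : X ⟶ N.pt) (g v : K) :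
    actHom N f (g * v) = actHom N f v ≫ N.act g := by
  rw [actHom_apply, actHom_apply, mul_comm, ModObj.act_mul, Category.assoc]

end res

variable [Abelian C] [Linear k C] [Module.Finite E K]

variable (k E K) in
/-- the regular representation of `K` over `E` -/
abbrev regRepn : Repn.{w} k (SingleObj K) E where
  V _ := K
  map f := LinearMap.mulLeft E f
  map_id _ := LinearMap.mulLeft_one E K
  map_comp f g := by
    change LinearMap.mulLeft E (g * f) = _
    exact LinearMap.mulLeft_mul (A := K) E g f
  map_add f g := LinearMap.ext fun v => add_mul f g v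
  map_smul r f := LinearMap.ext fun v => by
    change (r • f) * v = algebraMap k E r • (f * v)
    rw [algebraMap_smul, smul_mul_assoc]

variable (k E K C) in
/-- extension of scalars from `E` to `K` -/
noncomputable abbrev indE : ModObj k E C ⥤ ModObj k K C := tensRFun C (regRepn k E K)

/-- the underlying morphism of a morphism from an induced object -/
noncomputable def up {M : ModObj k E C} {N : ModObj k K C} (f : (indE k E K C).obj M ⟶ N) :
    tens M K ⟶ N.pt := ModObj.homPt f

/-- the underlying morphism of a morphism to an induced object -/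
noncomputable def upR {M : ModObj k E C} {N : ModObj k K C} (f : N ⟶ (indE k E K C).obj M) :
    N.pt ⟶ tens M K := ModObj.homPt f

/-- the action on an induced object -/
noncomputable def indAct (M : ModObj k E C) (x : K) : tens M K ⟶ tens M K :=
  ((indE k E K C).obj M).act x

@[reassoc (attr := simp)]
lemma tmk_indAct (M : ModObj k E C) (x v : K) : tmk M v ≫ indAct M x = tmk M (x * v) :=
  tmk_tmap M (LinearMap.mulLeft E x) v

@[reassoc]
lemma indAct_up {M : ModObj k E C} {N : ModObj k K C} (f : (indE k E K C).obj M ⟶ N) (x : K) :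
    indAct M x ≫ up f = up f ≫ N.act x := ModObj.act_homPt f x

@[reassoc]
lemma upR_indAct {M : ModObj k E C} {N : ModObj k K C} (f : N ⟶ (indE k E K C).obj M) (x : K) :
    N.act x ≫ upR f = upR f ≫ indAct M x := ModObj.act_homPt f x

/-- morphisms from an induced object -/
noncomputable def upMk {M : ModObj k E C} {N : ModObj k K C} (f : tens M K ⟶ N.pt)
    (h : ∀ x : K, indAct M x ≫ f = f ≫ N.act x) : (indE k E K C).obj M ⟶ N :=
  ModObj.homMk (M := (indE k E K C).obj M) f h

@[simp] lemma up_upMk {M : ModObj k E C} {N : ModObj k K C} (f : tens M K ⟶ N.pt)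
    (h : ∀ x : K, indAct M x ≫ f = f ≫ N.act x) : up (upMk f h) = f := rfl

/-- morphisms to an induced object -/
noncomputable def upRMk {M : ModObj k E C} {N : ModObj k K C} (f : N.pt ⟶ tens M K)
    (h : ∀ x : K, N.act x ≫ f = f ≫ indAct M x) : N ⟶ (indE k E K C).obj M :=
  ModObj.homMk (N := (indE k E K C).obj M) f h

@[simp] lemma upR_upRMk {M : ModObj k E C} {N : ModObj k K C} (f : N.pt ⟶ tens M K)
    (h : ∀ x : K, N.act x ≫ f = f ≫ indAct M x) : upR (upRMk f h) = f := rfl

/-- `M ⊗ K → N ⊗ K` -/
lemma homPt_indE_map {M N : ModObj k E C} (f : M ⟶ N) :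
    ModObj.homPt ((indE k E K C).map f) = tmapL K f := rfl

lemma up_ext {M : ModObj k E C} {N : ModObj k K C} {f g : (indE k E K C).obj M ⟶ N}
    (h : tmk M (1 : K) ≫ up f = tmk M 1 ≫ up g) : f = g := by
  refine ModObj.hom_ext (tens_ext M (V := K) fun v => ?_)
  have h1 : ∀ (f : (indE k E K C).obj M ⟶ N), tmk M v ≫ up f =
      (tmk M (1 : K) ≫ up f) ≫ N.act v := by
    intro f
    rw [Category.assoc, ← indAct_up, tmk_indAct_assoc, mul_one]
  exact (h1 f).trans ((congrArg (· ≫ N.act v) h).trans (h1 g).symm)

lemma upR_ext {M : ModObj k E C} {N : ModObj k K C} {f g : N ⟶ (indE k E K C).obj M}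
    (h : upR f = upR g) : f = g := ModObj.hom_ext h

/-- the map of the adjunction -/
noncomputable def indDesc {M : ModObj k E C} {N : ModObj k K C} (f : M ⟶ (resE k E K C).obj N) :
    (indE k E K C).obj M ⟶ N :=
  tensRDesc M (regRepn k E K) N (fun _ => actHom N (dn f)) (fun _ e v => actHom_smul f e v)
    (fun g v => actHom_mul _ g v)

@[reassoc]
lemma tmk_indDesc {M : ModObj k E C} {N : ModObj k K C} (f : M ⟶ (resE k E K C).obj N) (v : K) :
    tmk M v ≫ up (indDesc f) = dn f ≫ N.act v :=
  tmk_tensRDesc M (regRepn k E K) N (fun _ => actHom N (dn f)) (fun _ e v => actHom_smul f e v)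
    (fun g v => actHom_mul _ g v) (SingleObj.star K) v

/-- the unit of the adjunction -/
noncomputable def indUnit (M : ModObj k E C) : M ⟶ (resE k E K C).obj ((indE k E K C).obj M) :=
  dnMk (N := (indE k E K C).obj M) (tmk M (1 : K)) fun e => by
    change M.act e ≫ tmk M (1 : K) = tmk M (1 : K) ≫ indAct M (algebraMap E K e)
    rw [tmk_indAct, ← tmk_smul, Algebra.smul_def]

lemma dn_indUnit (M : ModObj k E C) :
    dn (N := (indE k E K C).obj M) (indUnit (K := K) M) = tmk M (1 : K) := rfl

lemma indDesc_unit {M : ModObj k E C} {N : ModObj k K C} (f : (indE k E K C).obj M ⟶ N) :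
    indDesc (indUnit M ≫ (resE k E K C).map f) = f := by
  refine up_ext ?_
  rw [tmk_indDesc, ModObj.act_one, Category.comp_id]
  rfl

@[reassoc (attr := simp)]
lemma unit_indDesc {M : ModObj k E C} {N : ModObj k K C} (f : M ⟶ (resE k E K C).obj N) :
    indUnit M ≫ (resE k E K C).map (indDesc f) = f := by
  refine dn_ext ?_
  change tmk M (1 : K) ≫ up (indDesc f) = _
  rw [tmk_indDesc, ModObj.act_one, Category.comp_id]

variable (k E K C) in
/-- extension of scalars is left adjoint to restriction -/
noncomputable def indAdj : indE k E K C ⊣ resE k E K C :=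
  Adjunction.mkOfHomEquiv
    { homEquiv := fun M N =>
        { toFun := fun f => indUnit M ≫ (resE k E K C).map f
          invFun := fun f => indDesc f
          left_inv := indDesc_unit
          right_inv := fun f => unit_indDesc f }
      homEquiv_naturality_left_symm := fun {M M' N} f g => by
        refine up_ext ?_
        change tmk M (1 : K) ≫ up (indDesc (f ≫ g)) = tmk M (1 : K) ≫ tmapL K f ≫ up (indDesc g)
        rw [tmk_indDesc, tmk_tmapL_assoc, tmk_indDesc, ModObj.act_one, Category.comp_id,
          Category.comp_id, dn_comp]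
      homEquiv_naturality_right := fun {M N N'} f g => by
        change indUnit M ≫ (resE k E K C).map (f ≫ g) =
          (indUnit M ≫ (resE k E K C).map f) ≫ (resE k E K C).map g
        rw [Functor.map_comp, Category.assoc] }

lemma indAdj_unit_app (M : ModObj k E C) : (indAdj k E K C).unit.app M = indUnit M := by
  refine dn_ext (N := (indE k E K C).obj M) ?_
  change tmk M (1 : K) ≫ 𝟙 _ = _
  rw [Category.comp_id]
  rfl

lemma indAdj_counit_app (N : ModObj k K C) :
    (indAdj k E K C).counit.app N = indDesc (𝟙 _) := rfl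

end Orl.Gal
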