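import Pool.Agent.Work.MP_a6e60d_ag.Gal.Ind

/-!
# The Galois decomposition of `K ⊗_E M` for a `K`-module object `M`
-/

open CategoryTheory Limits

attribute [-instance] CategoryTheory.catToReflQuiver

namespace Orl.Gal

open Orl.LF

universe w v' u'

attribute [local instance] Abelian.hasFiniteBiproducts

section field

variable {E : Type*} {K : Type w} [Field E] [Field K] [Algebra E K] [FiniteDimensional E K]

variable (E K) in
/-- the basis of `K` used for the tensor products -/
noncomputable abbrev bK : Module.Basis (Fin (Module.finrank E K)) E K := Module.finBasis E K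

variable (E K) in
/-- the dual basis for the trace form -/
noncomputable abbrev dK [Algebra.IsSeparable E K] : Module.Basis (Fin (Module.finrank E K)) E K :=
  (bK E K).traceDual

variable [IsGalois E K]

lemma sum_gal (i j : Fin (Module.finrank E K)) :
    ∑ g : K ≃ₐ[E] K, g (dK E K i) * g (bK E K j) = if i = j then 1 else 0 := by
  have h := (bK E K).trace_traceDual_mul i j
  have h2 := trace_eq_sum_automorphisms (K := E) (L := K) (dK E K i * bK E K j)
  rw [h] at h2
  simp only [map_mul] at h2
  rw [← h2]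
  split_ifs with h3 h4 h4
  · exact map_one _
  · exact absurd h3.symm h4
  · exact absurd h4.symm h3
  · exact map_zero _

open Classical in
lemma sum_basis (g h : K ≃ₐ[E] K) :
    ∑ i, g (dK E K i) * h (bK E K i) = if h = g then 1 else 0 := by
  let A : Matrix (K ≃ₐ[E] K) (Fin (Module.finrank E K)) K := Matrix.of fun g j => g (bK E K j)
  let B : Matrix (Fin (Module.finrank E K)) (K ≃ₐ[E] K) K := Matrix.of fun i g => g (dK E K i)
  have hBA : B * A = 1 := by
    ext i j
    rw [Matrix.mul_apply, Matrix.one_apply]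
    exact sum_gal i j
  have hAB : A * B = 1 := by
    rw [Matrix.mul_eq_one_comm_of_card_eq] at hBA
    · exact hBA
    · rw [Fintype.card_fin, ← IsGalois.card_aut_eq_finrank E K, Nat.card_eq_fintype_card]
  have := congrFun (congrFun hAB h) g
  rw [Matrix.mul_apply, Matrix.one_apply] at this
  rw [← this]
  exact Finset.sum_congr rfl fun i _ => mul_comm _ _

lemma sum_basis_self (g : K ≃ₐ[E] K) : ∑ i, g (dK E K i) * g (bK E K i) = 1 := by
  rw [sum_basis, if_pos rfl]

lemma sum_basis_ne {g h : K ≃ₐ[E] K} (hgh : h ≠ g) :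
    ∑ i, g (dK E K i) * h (bK E K i) = 0 := by
  rw [sum_basis, if_neg hgh]

end field

variable {k : Type*} [Field k] {E : Type*} {K : Type w} [Field E] [Field K] [Algebra k E]
  [Algebra k K] [Algebra E K] [IsScalarTower k E K]
variable {C : Type u'} [Category.{v'} C]

section conj

variable [Preadditive C] [Linear k C]

variable (k C) in
/-- the conjugate of a `K`-module object by an automorphism of `K` over `E` -/
abbrev conj (g : K ≃ₐ[E] K) : ModObj k K C ⥤ ModObj k K C :=
  resF C (g.restrictScalars k).toAlgHom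

lemma conj_act (g : K ≃ₐ[E] K) (M : ModObj k K C) (x : K) :
    ((conj k C g).obj M).act x = M.act (g x) := rfl

lemma conj_pt (g : K ≃ₐ[E] K) (M : ModObj k K C) : ((conj k C g).obj M).pt = M.pt := rfl

/-- `M = conj g M` after restriction to `E` -/
def resConj (g : K ≃ₐ[E] K) (M : ModObj k K C) :
    (resE k E K C).obj M ≅ (resE k E K C).obj ((conj k C g).obj M) where
  hom := dnMk (M := (resE k E K C).obj M) (N := (conj k C g).obj M) (𝟙 M.pt) fun e => by
    change M.act (algebraMap E K e) ≫ 𝟙 _ = 𝟙 _ ≫ M.act (g (algebraMap E K e))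
    rw [g.commutes, Category.id_comp, Category.comp_id]
  inv := dnMk (M := (resE k E K C).obj ((conj k C g).obj M)) (N := M) (𝟙 M.pt) fun e => by
    change M.act (g (algebraMap E K e)) ≫ 𝟙 _ = 𝟙 _ ≫ M.act (algebraMap E K e)
    rw [g.commutes, Category.id_comp, Category.comp_id]
  hom_inv_id := ModObj.hom_ext (Category.comp_id _)
  inv_hom_id := ModObj.hom_ext (Category.comp_id _)

end conj

variable [Abelian C] [Linear k C] [FiniteDimensional E K]

section

variable (M : ModObj k K C)

/-- the projection of `K ⊗_E M` to the conjugate `g M` -/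
noncomputable def indPr (g : K ≃ₐ[E] K) :
    (indE k E K C).obj ((resE k E K C).obj M) ⟶ (conj k C g).obj M :=
  indDesc (resConj g M).hom

variable (E) in
/-- the object underlying `K ⊗_E M` -/
noncomputable abbrev TK : C := tens ((resE k E K C).obj M) K

variable (E) in
/-- the morphism `M → K ⊗_E M` given by an element of `K` -/
noncomputable def tmkK (v : K) : M.pt ⟶ TK E M := tmk ((resE k E K C).obj M) v

variable (E) in
/-- the inclusions of the summands -/
noncomputable def tinK (i : Fin (Module.finrank E K)) : M.pt ⟶ TK E M :=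
  tin ((resE k E K C).obj M) K i

/-- the morphism underlying `indPr` -/
noncomputable def prK (g : K ≃ₐ[E] K) : TK E M ⟶ M.pt := up (N := (conj k C g).obj M) (indPr M g)

lemma tinK_eq (i : Fin (Module.finrank E K)) : tinK E M i = tmkK E M (bK E K i) :=
  (tmk_basis ((resE k E K C).obj M) i).symm

@[reassoc]
lemma tmkK_prK (g : K ≃ₐ[E] K) (v : K) : tmkK E M v ≫ prK M g = M.act (g v) :=
  (tmk_indDesc (N := (conj k C g).obj M) (resConj g M).hom v).trans (Category.id_comp (M.act (g v)))

@[reassoc]
lemma tinK_prK (g : K ≃ₐ[E] K) (i : Fin (Module.finrank E K)) :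
    tinK E M i ≫ prK M g = M.act (g (bK E K i)) := by
  rw [tinK_eq, tmkK_prK]

omit [FiniteDimensional E K] in
lemma TK_ext {X : C} {a b : TK E M ⟶ X} (h : ∀ i, tinK E M i ≫ a = tinK E M i ≫ b) : a = b :=
  tens_ext_tin _ _ h

lemma act_sum {J : Type*} (s : Finset J) (a : J → K) :
    M.act (∑ j ∈ s, a j) = ∑ j ∈ s, M.act (a j) := by
  have := map_sum (actHom M (𝟙 M.pt)) a s
  simpa only [actHom_apply, Category.id_comp] using this

variable [IsGalois E K]

/-- the morphism underlying the inclusion of `g M` in `K ⊗_E M` -/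
noncomputable def inK (g : K ≃ₐ[E] K) : M.pt ⟶ TK E M :=
  ∑ i, M.act (g (dK E K i)) ≫ tinK E M i

lemma inK_prK_aux (g h : K ≃ₐ[E] K) :
    inK M g ≫ prK M h = M.act (∑ i, g (dK E K i) * h (bK E K i)) := by
  unfold inK
  rw [Preadditive.sum_comp, act_sum]
  refine Finset.sum_congr rfl fun i _ => ?_
  rw [Category.assoc, tinK_prK, ModObj.act_mul]

@[reassoc]
lemma inK_prK_self (g : K ≃ₐ[E] K) : inK M g ≫ prK M g = 𝟙 M.pt := by
  rw [inK_prK_aux, sum_basis_self, ModObj.act_one]

@[reassoc]
lemma inK_prK_ne {g h : K ≃ₐ[E] K} (hgh : h ≠ g) : inK M g ≫ prK M h = 0 := by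
  rw [inK_prK_aux, sum_basis_ne hgh, ModObj.act_zero]

lemma sum_prK_inK : ∑ g : K ≃ₐ[E] K, prK M g ≫ inK M g = 𝟙 (TK E M) := by
  refine TK_ext M fun j => ?_
  have h1 : ∀ i : Fin (Module.finrank E K), ∑ g : K ≃ₐ[E] K,
      M.act (g (bK E K j)) ≫ M.act (g (dK E K i)) ≫ tinK E M i =
      M.act (∑ g : K ≃ₐ[E] K, g (dK E K i) * g (bK E K j)) ≫ tinK E M i := by
    intro i
    rw [act_sum, Preadditive.sum_comp]
    refine Finset.sum_congr rfl fun g _ => ?_
    rw [mul_comm, ModObj.act_mul, Category.assoc]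
  calc tinK E M j ≫ ∑ g : K ≃ₐ[E] K, prK M g ≫ inK M g
      = ∑ g : K ≃ₐ[E] K, ∑ i, M.act (g (bK E K j)) ≫ M.act (g (dK E K i)) ≫ tinK E M i := by
        rw [Preadditive.comp_sum]
        refine Finset.sum_congr rfl fun g _ => ?_
        rw [tinK_prK_assoc, inK, Preadditive.comp_sum]
    _ = ∑ i, M.act (∑ g : K ≃ₐ[E] K, g (dK E K i) * g (bK E K j)) ≫ tinK E M i := by
        rw [Finset.sum_comm]
        exact Finset.sum_congr rfl fun i _ => h1 i
    _ = tinK E M j ≫ 𝟙 (TK E M) := by
        rw [Finset.sum_eq_single j]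
        · rw [sum_gal, if_pos rfl, ModObj.act_one, Category.id_comp, Category.comp_id]
        · intro i _ hi
          rw [sum_gal, if_neg hi, ModObj.act_zero, zero_comp]
        · simp

lemma ext_prK {X : C} {a b : X ⟶ TK E M}
    (h : ∀ g : K ≃ₐ[E] K, a ≫ prK M g = b ≫ prK M g) : a = b := by
  rw [← Category.comp_id a, ← Category.comp_id b, ← sum_prK_inK, Preadditive.comp_sum,
    Preadditive.comp_sum]
  refine Finset.sum_congr rfl fun g _ => ?_
  rw [← Category.assoc, h, Category.assoc]

variable (E) in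
/-- the action of `K` on `K ⊗_E M` -/
noncomputable def actK (x : K) : TK E M ⟶ TK E M := indAct ((resE k E K C).obj M) x

omit [IsGalois E K] in
@[reassoc]
lemma actK_prK (g : K ≃ₐ[E] K) (x : K) : actK E M x ≫ prK M g = prK M g ≫ M.act (g x) :=
  indAct_up (indPr M g) x

/-- the inclusion of the conjugate `g M` in `K ⊗_E M` -/
noncomputable def indIn (g : K ≃ₐ[E] K) :
    (conj k C g).obj M ⟶ (indE k E K C).obj ((resE k E K C).obj M) :=
  upRMk (N := (conj k C g).obj M) (inK M g) fun x => by
    change M.act (g x) ≫ inK M g = inK M g ≫ actK E M x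
    refine ext_prK M fun h => ?_
    rw [Category.assoc, Category.assoc, actK_prK]
    by_cases hgh : h = g
    · subst hgh
      rw [inK_prK_self, inK_prK_self_assoc, Category.comp_id]
    · rw [inK_prK_ne _ hgh, inK_prK_ne_assoc _ hgh, comp_zero, zero_comp]

@[reassoc (attr := simp)]
lemma indIn_indPr_self (g : K ≃ₐ[E] K) : indIn M g ≫ indPr M g = 𝟙 _ :=
  ModObj.hom_ext (inK_prK_self M g)

@[reassoc]
lemma indIn_indPr_ne {g h : K ≃ₐ[E] K} (hgh : h ≠ g) : indIn M g ≫ indPr M h = 0 :=
  ModObj.hom_ext (inK_prK_ne M hgh)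

lemma sum_indPr_indIn : ∑ g : K ≃ₐ[E] K, indPr M g ≫ indIn M g = 𝟙 _ := by
  refine ModObj.hom_ext ?_
  refine Eq.trans ?_ (sum_prK_inK M (E := E))
  exact (ev (k := k) (C := C) (SingleObj.star K)).map_sum _ _

end

end Orl.Gal
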