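import Pool.Agent.Work.MP_a6e60d_ag.Gal.Dec
import Pool.Agent.Work.MP_a6e60d_ag.Q.Thk

/-!
# Descent of classes closed under two-out-of-three and retracts along an extension of fields
-/

open CategoryTheory Limits

attribute [-instance] CategoryTheory.catToReflQuiver

namespace Orl.Gal

open Orl.LF Orl.Q

universe w v' u'

attribute [local instance] Abelian.hasFiniteBiproducts

variable {k : Type*} [Field k] {E : Type*} {K : Type w} [Field E] [Field K] [Algebra k E]
  [Algebra k K] [Algebra E K] [IsScalarTower k E K]
variable {C : Type u'} [Category.{v'} C] [Abelian C] [Linear k C] [FiniteDimensional E K]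

section retract

variable (K) (X : ModObj k E C)

/-- the map `v ↦ X.act (π v)` for a linear functional `π` -/
def actFun (π : K →ₗ[E] E) : K →+ (X.pt ⟶ X.pt) where
  toFun v := X.act (π v)
  map_zero' := by rw [map_zero, ModObj.act_zero]
  map_add' v w := by rw [map_add, ModObj.act_add]

variable {K}

/-- the projection `K ⊗ X ⟶ X` given by a linear functional on `K` -/
noncomputable def indProj (π : K →ₗ[E] E) :
    (resE k E K C).obj ((indE k E K C).obj X) ⟶ X :=
  ModObj.homMk (M := (resE k E K C).obj ((indE k E K C).obj X)) (tdesc X (actFun K X π))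
    fun e => tens_ext X (V := K) fun v => by
      have h : ∀ (e : E) (v : K), actFun K X π (e • v) = X.act e ≫ actFun K X π v := fun e v => by
        change X.act (π (e • v)) = X.act e ≫ X.act (π v)
        rw [map_smul, smul_eq_mul, ModObj.act_mul]
      change tmk X v ≫ indAct X (algebraMap E K e) ≫ tdesc X (actFun K X π) =
        tmk X v ≫ tdesc X (actFun K X π) ≫ X.act e
      rw [tmk_indAct_assoc, tmk_tdesc X _ h, tmk_tdesc_assoc X _ h, ← Algebra.smul_def]
      change X.act (π (e • v)) = X.act (π v) ≫ X.act e
      rw [map_smul, smul_eq_mul, mul_comm, ModObj.act_mul]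

/-- the inclusion `X ⟶ K ⊗ X` given by an element of `K` -/
noncomputable def indIncl (v : K) : X ⟶ (resE k E K C).obj ((indE k E K C).obj X) :=
  ModObj.homMk (N := (resE k E K C).obj ((indE k E K C).obj X)) (tmk X v) fun e => by
    change X.act e ≫ tmk X v = tmk X v ≫ indAct X (algebraMap E K e)
    rw [tmk_indAct, ← tmk_smul, Algebra.smul_def]

lemma indIncl_indProj (π : K →ₗ[E] E) (v : K) :
    indIncl X v ≫ indProj X π = ModObj.homMk (X.act (π v)) (fun e => X.act_comm e _) := by
  refine ModObj.hom_ext ?_
  change tmk X v ≫ tdesc X (actFun K X π) = X.act (π v)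
  rw [tmk_tdesc X _ (fun e v => by
    change X.act (π (e • v)) = X.act e ≫ X.act (π v)
    rw [map_smul, smul_eq_mul, ModObj.act_mul])]
  rfl

omit [FiniteDimensional E K] in
variable (E K) in
lemma exists_proj : ∃ π : K →ₗ[E] E, π 1 = 1 := by
  obtain ⟨π, hπ⟩ := (Algebra.linearMap E K).exists_leftInverse_of_injective
    (LinearMap.ker_eq_bot.2 (algebraMap E K).injective)
  refine ⟨π, ?_⟩
  have := congrFun (congrArg DFunLike.coe hπ) (1 : E)
  simpa using this

/-- Every `E`-object is a retract of the restriction of its extension to `K`. -/
theorem exists_retract_res_ind :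
    Nonempty (Retract X ((resE k E K C).obj ((indE k E K C).obj X))) := by
  obtain ⟨π, hπ⟩ := exists_proj E K
  refine ⟨⟨indIncl X 1, indProj X π, ?_⟩⟩
  rw [indIncl_indProj]
  refine ModObj.hom_ext ?_
  change X.act (π 1) = 𝟙 _
  rw [hπ, ModObj.act_one]

end retract

section thk

variable {P : ObjectProperty (ModObj k E C)} (hP : Thk P)

include hP

/-- Descent: if the restriction of the extension of `X` belongs to the class, so does `X`. -/
theorem of_res_ind {X : ModObj k E C} (h : P ((resE k E K C).obj ((indE k E K C).obj X))) : P X :=
  hP.retract (exists_retract_res_ind X).some h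

/-- The restriction of the extension of `X` is a finite direct sum of copies of `X`. -/
theorem res_ind {X : ModObj k E C} (h : P X) :
    P ((resE k E K C).obj ((indE k E K C).obj X)) := by
  classical
  let b := Module.finBasis E K
  refine hP.of_total (J := Fin (Module.finrank E K)) (f := fun _ => X) (fun _ => h)
    (fun j => indIncl X (b j)) (fun j => indProj X (b.coord j)) ?_ ?_ ?_
  · intro j
    rw [indIncl_indProj]
    refine ModObj.hom_ext ?_
    change X.act (b.coord j (b j)) = 𝟙 _
    rw [Module.Basis.coord_apply, Module.Basis.repr_self, Finsupp.single_eq_same, ModObj.act_one]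
  · intro j j' hjj
    rw [indIncl_indProj]
    refine ModObj.hom_ext ?_
    change X.act (b.coord j' (b j)) = 0
    rw [Module.Basis.coord_apply, Module.Basis.repr_self, Finsupp.single_eq_of_ne hjj.symm,
      ModObj.act_zero]
  · refine ModObj.hom_ext ?_
    refine ((ev (k := k) (C := C) (SingleObj.star E)).map_sum _ _).trans ?_
    have h1 : ∀ j, tpr X K j = tdesc X (actFun K X (b.coord j)) := by
      intro j
      refine tens_ext_tin X K fun i => ?_
      rw [tin_tdesc]
      change _ = X.act (b.coord j (b i))
      rw [Module.Basis.coord_apply, Module.Basis.repr_self]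
      by_cases hij : i = j
      · subst hij
        rw [tin_tpr_self, Finsupp.single_eq_same, ModObj.act_one]
      · rw [tin_tpr_ne X K hij, Finsupp.single_eq_of_ne (fun h => hij h.symm), ModObj.act_zero]
    refine Eq.trans (Finset.sum_congr rfl fun j _ => ?_) (tpr_tin_total X K)
    change tdesc X (actFun K X (b.coord j)) ≫ tmk X (b j) = tpr X K j ≫ tin X K j
    rw [h1, tmk_basis]

omit [FiniteDimensional E K] in
/-- The class of the `K`-objects whose restriction belongs to the class. -/
theorem thk_res : Thk (P.inverseImage (resE k E K C)) := hP.comap' (resE k E K C)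

omit [FiniteDimensional E K] in
/-- The class of the `K`-objects whose restriction belongs to the class is stable under
conjugation. -/
theorem res_conj_iff (g : K ≃ₐ[E] K) (M : ModObj k K C) :
    P.inverseImage (resE k E K C) ((conj k C g).obj M) ↔ P.inverseImage (resE k E K C) M :=
  (hP.iso_iff (resConj g M)).symm

omit [FiniteDimensional E K] in
theorem res_conj (g : K ≃ₐ[E] K) {M : ModObj k K C} (h : P.inverseImage (resE k E K C) M) :
    P.inverseImage (resE k E K C) ((conj k C g).obj M) := (res_conj_iff hP g M).2 h

end thk

section trans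

variable {E₀ : Type*} [Field E₀] [Algebra k E₀] [Algebra E₀ E] [Algebra E₀ K]
  [IsScalarTower k E₀ E] [IsScalarTower k E₀ K] [IsScalarTower E₀ E K]

omit [FiniteDimensional E K] in
/-- restriction in two steps -/
lemma resE_resE_act (M : ModObj k K C) (e : E₀) :
    ((resE k E₀ E C).obj ((resE k E K C).obj M)).act e = ((resE k E₀ K C).obj M).act e := by
  change M.act (algebraMap E K (algebraMap E₀ E e)) = M.act (algebraMap E₀ K e)
  rw [← IsScalarTower.algebraMap_apply]

variable (k E K C E₀) in
omit [FiniteDimensional E K] in
/-- restriction in two steps -/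
def resTrans : resE k E K C ⋙ resE k E₀ E C ≅ resE k E₀ K C :=
  NatIso.ofComponents
    (fun M =>
      { hom := ModObj.homMk (M := (resE k E₀ E C).obj ((resE k E K C).obj M))
          (N := (resE k E₀ K C).obj M) (𝟙 M.pt) fun e => by
            rw [resE_resE_act]
            exact (Category.comp_id _).trans (Category.id_comp _).symm
        inv := ModObj.homMk (M := (resE k E₀ K C).obj M)
          (N := (resE k E₀ E C).obj ((resE k E K C).obj M)) (𝟙 M.pt) fun e => by
            rw [resE_resE_act]
            exact (Category.comp_id _).trans (Category.id_comp _).symm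
        hom_inv_id := ModObj.hom_ext (Category.comp_id _)
        inv_hom_id := ModObj.hom_ext (Category.comp_id _) })
    (fun {M N} f => ModObj.hom_ext
      ((Category.comp_id (ModObj.homPt f)).trans (Category.id_comp (ModObj.homPt f)).symm))

variable [FiniteDimensional E₀ E] [FiniteDimensional E₀ K]

variable (k E K C E₀) in
/-- extension of scalars in two steps -/
noncomputable def indTrans : indE k E₀ E C ⋙ indE k E K C ≅ indE k E₀ K C :=
  (((indAdj k E₀ E C).comp (indAdj k E K C)).ofNatIsoRight (resTrans k E K C E₀)).leftAdjointUniq
    (indAdj k E₀ K C)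

/-- Descent for extensions of `E₀`-objects: if the restriction to `E` of the extension of `X` to
`K` belongs to the class, so does the extension of `X` to `E`. -/
theorem ind_of_res_ind {P : ObjectProperty (ModObj k E C)} (hP : Thk P) (X : ModObj k E₀ C)
    (h : P ((resE k E K C).obj ((indE k E₀ K C).obj X))) : P ((indE k E₀ E C).obj X) :=
  of_res_ind (K := K) hP
    (hP.iso ((resE k E K C).mapIso ((indTrans k E K C E₀).app X)).symm h)

end trans

end Orl.Gal
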