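import Pool.Agent.Work.MP_a6e60d_ag.Gal.Dec

/-!
# Morphisms between restrictions of scalars along a Galois extension
-/

open CategoryTheory Limits

attribute [-instance] CategoryTheory.catToReflQuiver

namespace Orl.Gal

open Orl.LF

universe w v' u'

attribute [local instance] Abelian.hasFiniteBiproducts

variable {k : Type*} [Field k] {E : Type*} {K : Type w} [Field E] [Field K] [Algebra k E]
  [Algebra k K] [Algebra E K] [IsScalarTower k E K]
variable {C : Type u'} [Category.{v'} C] [Abelian C] [Linear k C] [FiniteDimensional E K]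

/-- `Hom_K(K ⊗_E M, N) = Hom_E(M, res N)` -/
noncomputable def homInd (M : ModObj k E C) (N : ModObj k K C) :
    ((indE k E K C).obj M ⟶ N) ≃ₗ[k] (M ⟶ (resE k E K C).obj N) where
  toFun f := indUnit M ≫ (resE k E K C).map f
  invFun f := indDesc f
  left_inv := indDesc_unit
  right_inv := fun f => unit_indDesc f
  map_add' f g := by rw [Functor.map_add, Preadditive.comp_add]
  map_smul' r f := by rw [Functor.map_smul, Linear.comp_smul, RingHom.id_apply]

variable [IsGalois E K]

/-- `Hom_K(K ⊗_E res M, N) = ⊕ Hom_K(g M, N)` -/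
noncomputable def homDec (M N : ModObj k K C) :
    ((indE k E K C).obj ((resE k E K C).obj M) ⟶ N) ≃ₗ[k]
      ∀ g : K ≃ₐ[E] K, ((conj k C g).obj M ⟶ N) where
  toFun x g := indIn M g ≫ x
  invFun y := ∑ g, indPr M g ≫ y g
  left_inv x := by
    have h : ∑ g : K ≃ₐ[E] K, indPr M g ≫ indIn M g ≫ x =
        (∑ g : K ≃ₐ[E] K, indPr M g ≫ indIn M g) ≫ x := by
      rw [Preadditive.sum_comp]
      simp only [Category.assoc]
    refine h.trans ?_
    rw [sum_indPr_indIn, Category.id_comp]
  right_inv y := by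
    funext g
    change indIn M g ≫ ∑ h, indPr M h ≫ y h = y g
    rw [Preadditive.comp_sum, Finset.sum_eq_single g]
    · rw [indIn_indPr_self_assoc]
    · intro h _ hgh
      rw [indIn_indPr_ne_assoc M hgh, zero_comp]
    · simp
  map_add' x y := by
    funext g
    exact Preadditive.comp_add _ _ _ _ _ _
  map_smul' c x := by
    funext g
    exact Linear.comp_smul _ _ _ _ _ _

/-- `Hom_E(res M, res N) = ⊕ Hom_K(g M, N)` -/
noncomputable def homGal (M N : ModObj k K C) :
    ((resE k E K C).obj M ⟶ (resE k E K C).obj N) ≃ₗ[k]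
      ∀ g : K ≃ₐ[E] K, ((conj k C g).obj M ⟶ N) :=
  (homInd ((resE k E K C).obj M) N).symm.trans (homDec M N)

lemma homPt_homGal_symm (M N : ModObj k K C) (y : ∀ g : K ≃ₐ[E] K, ((conj k C g).obj M ⟶ N)) :
    ModObj.homPt ((homGal M N).symm y) =
      ∑ g : K ≃ₐ[E] K, ModObj.homPt (M := (conj k C g).obj M) (N := N) (y g) := by
  have h1 : (homGal M N).symm y =
      ∑ g : K ≃ₐ[E] K, (resConj g M).hom ≫ (resE k E K C).map (y g) := by
    change homInd ((resE k E K C).obj M) N (∑ g, indPr M g ≫ y g) = _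
    rw [map_sum]
    refine Finset.sum_congr rfl fun g _ => ?_
    change indUnit _ ≫ (resE k E K C).map (indPr M g ≫ y g) = _
    rw [Functor.map_comp, ← Category.assoc]
    refine congrArg (· ≫ (resE k E K C).map (y g)) ?_
    exact unit_indDesc (resConj g M).hom
  rw [h1]
  refine ((ev (k := k) (C := C) (SingleObj.star E)).map_sum _ _).trans ?_
  refine Finset.sum_congr rfl fun g _ => ?_
  exact Category.id_comp (ModObj.homPt (M := (conj k C g).obj M) (N := N) (y g))

theorem finite_hom_res (M N : ModObj k K C)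
    (h : ∀ g : K ≃ₐ[E] K, Module.Finite k ((conj k C g).obj M ⟶ N)) :
    Module.Finite k ((resE k E K C).obj M ⟶ (resE k E K C).obj N) := by
  exact Module.Finite.equiv (homGal M N).symm

theorem hom_res_eq_zero (M N : ModObj k K C)
    (h : ∀ (g : K ≃ₐ[E] K) (f : (conj k C g).obj M ⟶ N), f = 0)
    (f : (resE k E K C).obj M ⟶ (resE k E K C).obj N) : f = 0 := by
  refine (homGal M N).injective ?_
  rw [map_zero]
  funext g
  exact h g _

/-- If the only `K`-linear endomorphisms are the scalars and there are no morphisms from the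
nontrivial conjugates, the endomorphisms of the restriction are the scalars. -/
theorem exists_act_of_hom_res (M : ModObj k K C)
    (h1 : ∀ f : M ⟶ M, ∃ x : K, ModObj.homPt f = M.act x)
    (h2 : ∀ (g : K ≃ₐ[E] K), g ≠ 1 → ∀ f : (conj k C g).obj M ⟶ M, f = 0)
    (f : (resE k E K C).obj M ⟶ (resE k E K C).obj M) :
    ∃ x : K, ModObj.homPt f = M.act x := by
  obtain ⟨y, rfl⟩ := (homGal M M).symm.surjective f
  have hy : ∀ g : K ≃ₐ[E] K, g ≠ 1 → y g = 0 := fun g hg => h2 g hg _
  let f1 : M ⟶ M := ModObj.homMk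
    (ModObj.homPt (M := (conj k C (1 : K ≃ₐ[E] K)).obj M) (N := M) (y 1))
    (fun e => ModObj.act_homPt (M := (conj k C (1 : K ≃ₐ[E] K)).obj M) (N := M) (y 1) e)
  obtain ⟨x, hx⟩ := h1 f1
  refine ⟨x, ?_⟩
  rw [homPt_homGal_symm, Finset.sum_eq_single 1]
  · exact hx
  · intro g _ hg
    rw [hy g hg]
    rfl
  · simp

/-- scalars as endomorphisms of the restriction -/
def actEnd (M : ModObj k K C) (x : K) : (resE k E K C).obj M ⟶ (resE k E K C).obj M :=
  ModObj.homMk (M := (resE k E K C).obj M) (N := (resE k E K C).obj M) (M.act x)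
    fun _ => ModObj.act_comm M _ _

omit [FiniteDimensional E K] [IsGalois E K] in
lemma homPt_actEnd (M : ModObj k K C) (x : K) :
    ModObj.homPt (actEnd (E := E) M x) = M.act x := rfl

variable (E) in
/-- the homomorphism of `k`-algebras from `K` to the endomorphisms of the restriction -/
def actAlgHom (M : ModObj k K C) : K →ₐ[k] End ((resE k E K C).obj M) where
  toFun x := actEnd M x
  map_one' := ModObj.hom_ext (ModObj.act_one M)
  map_mul' x y := ModObj.hom_ext (by
    refine (ModObj.act_mul M x y).trans ?_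
    exact ModObj.act_comm M x y)
  map_zero' := ModObj.hom_ext (ModObj.act_zero M)
  map_add' x y := ModObj.hom_ext (ModObj.act_add M x y)
  commutes' r := ModObj.hom_ext (ModObj.act_algebraMap M r)

/-- The endomorphism algebra of the restriction is `K`. -/
noncomputable def endEquiv (M : ModObj k K C) (h0 : ¬ IsZero M.pt)
    (h1 : ∀ f : M ⟶ M, ∃ x : K, ModObj.homPt f = M.act x)
    (h2 : ∀ (g : K ≃ₐ[E] K), g ≠ 1 → ∀ f : (conj k C g).obj M ⟶ M, f = 0) :
    K ≃ₐ[k] End ((resE k E K C).obj M) :=
  AlgEquiv.ofBijective (actAlgHom E M) (by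
    have : Nontrivial (End ((resE k E K C).obj M)) := by
      refine ⟨0, 1, fun h => h0 ?_⟩
      rw [IsZero.iff_id_eq_zero]
      exact (congrArg ModObj.homPt h).symm
    refine ⟨(actAlgHom E M).toRingHom.injective, fun f => ?_⟩
    obtain ⟨x, hx⟩ := exists_act_of_hom_res M h1 h2 f
    exact ⟨x, ModObj.hom_ext hx.symm⟩)

end Orl.Gal
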