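import Pool.Agent.Work.MP_a6e60d_ag.Gal.Dec

/-!
# Separable extensions: `K ⊗_E M → M` is naturally split
-/

open CategoryTheory Limits Abelian

attribute [-instance] CategoryTheory.catToReflQuiver

namespace Orl.Gal

open Orl.LF

universe w₁ w₂ w v' u'

attribute [local instance] Abelian.hasFiniteBiproducts

section field

variable {E : Type*} {K : Type w} [Field E] [Field K] [Algebra E K] [FiniteDimensional E K]
  [Algebra.IsSeparable E K]

lemma bK_repr (x : K) (j : Fin (Module.finrank E K)) :
    (bK E K).repr x j = Algebra.trace E K (x * dK E K j) := by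
  have h := (bK E K).traceDual.traceDual_repr_apply x j
  rw [Module.Basis.traceDual_traceDual] at h
  exact h

lemma dK_repr (x : K) (j : Fin (Module.finrank E K)) :
    (dK E K).repr x j = Algebra.trace E K (x * bK E K j) :=
  (bK E K).traceDual_repr_apply x j

lemma sum_dK_bK : ∑ i, dK E K i * bK E K i = 1 := by
  have key : ∀ y : K, Algebra.trace E K ((∑ i, dK E K i * bK E K i) * y) =
      Algebra.trace E K (1 * y) := by
    intro y
    rw [one_mul, Algebra.trace_eq_matrix_trace (bK E K) y, Matrix.trace, Finset.sum_mul, map_sum]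
    refine Finset.sum_congr rfl fun i _ => ?_
    rw [Matrix.diag_apply, Algebra.leftMulMatrix_eq_repr_mul, bK_repr]
    congr 1
    ring
  have h := traceForm_nondegenerate E K
  have h1 := h.1 ((∑ i, dK E K i * bK E K i) - 1) (fun y => by
    rw [LinearMap.map_sub₂]
    exact sub_eq_zero.2 (key y))
  exact sub_eq_zero.1 h1

end field

section sec

variable {k : Type*} [Field k] {E : Type*} {K : Type w} [Field E] [Field K] [Algebra k E]
  [Algebra k K] [Algebra E K] [IsScalarTower k E K]
variable {C : Type u'} [Category.{v'} C] [Abelian C] [Linear k C] [FiniteDimensional E K]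
variable (M : ModObj k K C)

lemma tmkK_smul (e : E) (v : K) :
    tmkK E M (e • v) = M.act (algebraMap E K e) ≫ tmkK E M v :=
  tmk_smul ((resE k E K C).obj M) e v

lemma tmkK_add (v v' : K) : tmkK E M (v + v') = tmkK E M v + tmkK E M v' :=
  tmk_add ((resE k E K C).obj M) v v'

lemma tmkK_zero : tmkK E M 0 = 0 := tmk_zero ((resE k E K C).obj M)

lemma tmkK_sum {J : Type*} (s : Finset J) (f : J → K) :
    tmkK E M (∑ j ∈ s, f j) = ∑ j ∈ s, tmkK E M (f j) := by
  classical
  induction s using Finset.induction_on with
  | empty => simp [tmkK_zero]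
  | insert a s ha ih => rw [Finset.sum_insert ha, Finset.sum_insert ha, tmkK_add, ih]

@[reassoc]
lemma tmkK_actK (x v : K) : tmkK E M v ≫ actK E M x = tmkK E M (x * v) :=
  tmk_indAct ((resE k E K C).obj M) x v

variable (E) in
/-- the counit `K ⊗_E M → M` -/
noncomputable def counitK : (indE k E K C).obj ((resE k E K C).obj M) ⟶ M := indDesc (𝟙 _)

variable (E) in
/-- the morphism underlying the counit -/
noncomputable def counitPt : TK E M ⟶ M.pt := up (counitK E M)

@[reassoc]
lemma tmkK_counit (v : K) : tmkK E M v ≫ counitPt E M = M.act v :=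
  (tmk_indDesc (N := M) (𝟙 _) v).trans (Category.id_comp (M.act v))

variable [Algebra.IsSeparable E K]

variable (E) in
/-- the morphism underlying the splitting of the counit -/
noncomputable def secPt : M.pt ⟶ TK E M := ∑ i, M.act (dK E K i) ≫ tmkK E M (bK E K i)

lemma secPt_act (x : K) : M.act x ≫ secPt E M = secPt E M ≫ actK E M x := by
  have h1 : ∀ i : Fin (Module.finrank E K), tmkK E M (bK E K i) ≫ actK E M x =
      ∑ j, M.act (algebraMap E K (Algebra.trace E K (x * bK E K i * dK E K j))) ≫
        tmkK E M (bK E K j) := by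
    intro i
    rw [tmkK_actK]
    conv_lhs => rw [← (bK E K).sum_repr (x * bK E K i)]
    rw [tmkK_sum]
    refine Finset.sum_congr rfl fun j _ => ?_
    rw [tmkK_smul, bK_repr]
  have h2 : ∀ j : Fin (Module.finrank E K), M.act x ≫ M.act (dK E K j) =
      ∑ i, M.act (dK E K i) ≫
        M.act (algebraMap E K (Algebra.trace E K (x * bK E K i * dK E K j))) := by
    intro j
    rw [← ModObj.act_mul]
    conv_lhs => rw [← (dK E K).sum_repr (x * dK E K j)]
    rw [act_sum]
    refine Finset.sum_congr rfl fun i _ => ?_
    rw [Algebra.smul_def, mul_comm, ModObj.act_mul, dK_repr]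
    congr 4
    ring
  unfold secPt
  rw [Preadditive.comp_sum, Preadditive.sum_comp]
  simp only [Category.assoc, h1, Preadditive.comp_sum]
  rw [Finset.sum_comm]
  refine Finset.sum_congr rfl fun j _ => ?_
  rw [← Category.assoc, h2, Preadditive.sum_comp]
  simp only [Category.assoc]

variable (E) in
/-- the splitting of the counit `K ⊗_E M → M` -/
noncomputable def secK : M ⟶ (indE k E K C).obj ((resE k E K C).obj M) :=
  upRMk (secPt E M) (secPt_act M)

@[reassoc (attr := simp)]
lemma secK_counitK : secK E M ≫ counitK E M = 𝟙 M := by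
  refine ModObj.hom_ext ?_
  change secPt E M ≫ counitPt E M = 𝟙 M.pt
  unfold secPt
  rw [Preadditive.sum_comp]
  simp only [Category.assoc, tmkK_counit, ← ModObj.act_mul]
  rw [← act_sum, sum_dK_bK, ModObj.act_one]

section ext

variable [HasExt.{w₁} (ModObj k E C)] [HasExt.{w₂} (ModObj k K C)]

/-- **Restriction of scalars along a finite separable extension is injective on Ext.** -/
theorem ext_res_injective (N : ModObj k K C) (n : ℕ) :
    Function.Injective (fun x : Ext.{w₂} M N n =>
      (x.mapExactFunctor (resE k E K C) : Ext.{w₁} _ _ n)) := by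
  have key : ∀ x : Ext.{w₂} M N n,
      (x.mapExactFunctor (resE k E K C) : Ext.{w₁} _ _ n) = 0 → x = 0 := by
    intro x hx
    have h1 : ((x.mapExactFunctor (resE k E K C) : Ext.{w₁} _ _ n).mapExactFunctor
        (indE k E K C) : Ext.{w₂} _ _ n).comp (Ext.mk₀ ((indAdj k E K C).counit.app N))
        (add_zero n) = (Ext.mk₀ ((indAdj k E K C).counit.app M)).comp x (zero_add n) := by
      have := Fdim.mapExactFunctor_natTrans (indAdj k E K C).counit x
      rw [Fdim.mapExactFunctor_comp_functor, Fdim.mapExactFunctor_id] at this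
      exact this
    rw [hx, Ext.mapExactFunctor_zero, Ext.zero_comp] at h1
    have h2 : (indAdj k E K C).counit.app M = counitK E M := indAdj_counit_app M
    have h3 : x = (Ext.mk₀ (secK E M)).comp
        ((Ext.mk₀ ((indAdj k E K C).counit.app M)).comp x (zero_add n)) (zero_add n) := by
      rw [Ext.mk₀_comp_mk₀_assoc, h2]
      have h4 : secK E M ≫ counitK E M = 𝟙 M := secK_counitK M
      erw [h4]
      exact (Ext.mk₀_id_comp x).symm
    rw [h3]
    refine (congrArg (fun z => (Ext.mk₀ (secK E M)).comp z (zero_add n)) h1.symm).trans ?_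
    exact Ext.comp_zero (Ext.mk₀ (secK E M)) N n n (zero_add n)
  intro x y hxy
  have h := key (x - y) (by
    change (resE k E K C).mapExtAddHom M N n (x - y) = 0
    rw [map_sub]
    exact sub_eq_zero.2 hxy)
  exact sub_eq_zero.1 h

end ext

end sec

end Orl.Gal
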