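import Pool.Agent.Work.MP_a6e60d_ag.Gal.Ext
import Pool.Agent.Work.MP_a6e60d_ag.Gal.Hom
import Pool.Agent.Work.MP_a6e60d_ag.Gal.Sep

/-!
# The base field: `k`-module objects of `C` are the objects of `C`
-/

open CategoryTheory Limits Abelian

attribute [-instance] CategoryTheory.catToReflQuiver

namespace Orl.Gal

open Orl.LF

universe w₁ w₂ w₃ w v' u'

attribute [local instance] Abelian.hasFiniteBiproducts

section triv

variable {k : Type w} [Field k]
variable {C : Type u'} [Category.{v'} C] [Preadditive C] [Linear k C]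

variable (k) in
/-- an object of `C` as a `k`-module object -/
def trivObj (X : C) : ModObj k k C :=
  ModObj.mk' X (fun r => r • 𝟙 X) (one_smul _ _)
    (fun r s => by rw [Linear.smul_comp, Category.id_comp, mul_smul]) (fun r s => add_smul _ _ _)
    (fun r s => smul_assoc _ _ _)

lemma trivObj_pt (X : C) : (trivObj k X).pt = X := rfl

lemma trivObj_act (X : C) (r : k) : (trivObj k X).act r = r • 𝟙 X := rfl

lemma act_eq_smul (M : ModObj k k C) (r : k) : M.act r = r • 𝟙 M.pt :=
  ModObj.act_algebraMap M r

lemma smul_id_comm {X Y : C} (f : X ⟶ Y) (r : k) : (r • 𝟙 X) ≫ f = f ≫ (r • 𝟙 Y) := by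
  rw [Linear.smul_comp, Linear.comp_smul, Category.id_comp, Category.comp_id]

variable (k C) in
/-- objects of `C` as `k`-module objects -/
def triv : C ⥤ ModObj k k C where
  obj X := trivObj k X
  map {X Y} f := ModObj.homMk (M := trivObj k X) (N := trivObj k Y) f fun r => smul_id_comm f r
  map_id _ := rfl
  map_comp _ _ := rfl

lemma homPt_triv_map {X Y : C} (f : X ⟶ Y) : ModObj.homPt ((triv k C).map f) = f := rfl

instance : (triv k C).Additive where
  map_add := rfl

instance : (triv k C).Linear k where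
  map_smul _ _ := rfl

variable (k) in
/-- a `k`-module object is its underlying object with the trivial action -/
def trivIso (M : ModObj k k C) : (triv k C).obj M.pt ≅ M where
  hom := ModObj.homMk (M := trivObj k M.pt) (N := M) (𝟙 M.pt) fun r =>
    (smul_id_comm (𝟙 M.pt) r).trans (congrArg (𝟙 M.pt ≫ ·) (act_eq_smul M r).symm)
  inv := ModObj.homMk (M := M) (N := trivObj k M.pt) (𝟙 M.pt) fun r =>
    (congrArg (· ≫ 𝟙 M.pt) (act_eq_smul M r)).trans (smul_id_comm (𝟙 M.pt) r)
  hom_inv_id := ModObj.hom_ext (Category.comp_id _)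
  inv_hom_id := ModObj.hom_ext (Category.comp_id _)

end triv

section equiv

variable {k : Type w} [Field k]
variable {C : Type u'} [Category.{v'} C] [Abelian C] [Linear k C]

variable (k C) in
/-- `C = ModObj k k C` -/
def trivEquiv : C ≌ ModObj k k C where
  functor := triv k C
  inverse := ev (SingleObj.star k)
  unitIso := Iso.refl _
  counitIso := NatIso.ofComponents (fun M => trivIso k M)
    (fun {_ _} f => ModObj.hom_ext
      ((Category.comp_id (ModObj.homPt f)).trans (Category.id_comp (ModObj.homPt f)).symm))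
  functor_unitIso_comp X := ModObj.hom_ext (Category.comp_id (𝟙 X))

instance : (triv k C).IsEquivalence := (trivEquiv k C).isEquivalence_functor

instance : (ev (k := k) (C := C) (SingleObj.star k)).IsEquivalence :=
  (trivEquiv k C).isEquivalence_inverse

end equiv

section ext

variable {k : Type*} [Field k]
variable {C : Type u'} [Category.{v'} C] [Abelian C] [Linear k C] [HasExt.{w₁} C]

/-- `Ext` of `k`-module objects is `Ext` of the underlying objects -/
noncomputable def extPt [HasExt.{w₂} (ModObj k k C)] (M N : ModObj k k C) (n : ℕ) :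
    Ext.{w₂} M N n ≃ₗ[k] Ext.{w₁} M.pt N.pt n :=
  LinearEquiv.ofBijective ((ev (k := k) (C := C) (SingleObj.star k)).mapExtLinearMap k M N n)
    (Fdim.mapExactFunctor_bijective_of_isEquivalence _ M N n)

variable {K : Type w} [Field K] [Algebra k K] [FiniteDimensional k K]

/-- `Ext_C(M, N) = ⊕ Ext_K(g M, N)` for `K`-module objects, `K` Galois over the base field -/
noncomputable def extPtGal [IsGalois k K] [HasExt.{w₃} (ModObj k K C)] (M N : ModObj k K C)
    (n : ℕ) :
    Ext.{w₁} M.pt N.pt n ≃ₗ[k] ∀ g : K ≃ₐ[k] K, Ext.{w₃} ((conj k C g).obj M) N n :=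
  letI := HasExt.standard (ModObj k k C)
  (extPt ((resE k k K C).obj M) ((resE k k K C).obj N) n).symm.trans (extGal M N n)

theorem ext_pt_subsingleton [IsGalois k K] [HasExt.{w₃} (ModObj k K C)] (M N : ModObj k K C)
    (n : ℕ) (h : ∀ g : K ≃ₐ[k] K, Subsingleton (Ext.{w₃} ((conj k C g).obj M) N n)) :
    Subsingleton (Ext.{w₁} M.pt N.pt n) :=
  (extPtGal M N n).toEquiv.subsingleton

theorem ext_pt_subsingleton' [IsGalois k K] [HasExt.{w₃} (ModObj k K C)] (M N : ModObj k K C)
    (n : ℕ) (h : ∀ g : K ≃ₐ[k] K, Subsingleton (Ext.{w₃} M ((conj k C g).obj N) n)) :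
    Subsingleton (Ext.{w₁} M.pt N.pt n) :=
  ext_pt_subsingleton M N n fun g => by
    have := h g.symm
    exact (extConj g M N n).toEquiv.subsingleton

omit [HasExt.{w₁} C] in
variable (k C K) in
/-- `K ⊗_k X` for an object `X` of `C` -/
noncomputable abbrev indC : C ⥤ ModObj k K C := triv k C ⋙ indE k k K C

omit [HasExt.{w₁} C] in
variable (k C K) in
/-- `K ⊗_k -` is left adjoint to the forgetful functor -/
noncomputable def indCAdj : indC k C K ⊣ ev (SingleObj.star K) :=
  (trivEquiv k C).toAdjunction.comp (indAdj k k K C)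

/-- `Ext_K(K ⊗_k X, N) = Ext_C(X, N)` -/
noncomputable def extIndC [HasExt.{w₃} (ModObj k K C)] (X : C) (N : ModObj k K C) (n : ℕ) :
    Ext.{w₃} ((indC k C K).obj X) N n ≃ₗ[k] Ext.{w₁} X N.pt n :=
  Fdim.extAdjEquiv (indCAdj k C K) k X N n

/-- **The forgetful functor is injective on Ext** for a finite separable extension. -/
theorem ext_pt_injective [Algebra.IsSeparable k K] [HasExt.{w₃} (ModObj k K C)]
    (M N : ModObj k K C) (n : ℕ) :
    Function.Injective (fun x : Ext.{w₃} M N n =>
      (x.mapExactFunctor (ev (SingleObj.star K)) : Ext.{w₁} M.pt N.pt n)) := by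
  let := HasExt.standard (ModObj k k C)
  have h1 := ext_res_injective (E := k) M N n
  have h2 := (extPt ((resE k k K C).obj M) ((resE k k K C).obj N) n).injective
  have h3 := h2.comp h1
  intro x y hxy
  refine h3 ?_
  have h4 : ∀ z : Ext.{w₃} M N n,
      (z.mapExactFunctor (ev (SingleObj.star K)) : Ext.{w₁} M.pt N.pt n) =
      extPt ((resE k k K C).obj M) ((resE k k K C).obj N) n
        (z.mapExactFunctor (resE k k K C)) := fun z =>
    Fdim.mapExactFunctor_comp_functor (resE k k K C) (ev (SingleObj.star k)) z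
  exact (h4 x).symm.trans (hxy.trans (h4 y))

end ext

end Orl.Gal
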