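import Pool.Agent.Work.MP_a6e60d_ag.Gal.Desc
import Pool.Agent.Work.MP_a6e60d_ag.Gal.Base

/-!
# Descent of statements on Hom and Ext from `K ⊗_E M` to `M`
-/

open CategoryTheory Limits Abelian

attribute [-instance] CategoryTheory.catToReflQuiver

namespace Orl.Gal

open Orl.LF

universe w₁ w₂ w v' u'

attribute [local instance] Abelian.hasFiniteBiproducts

variable {k : Type*} [Field k] {E : Type*} {K : Type w} [Field E] [Field K] [Algebra k E]
  [Algebra k K] [Algebra E K] [IsScalarTower k E K]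
variable {C : Type u'} [Category.{v'} C] [Abelian C] [Linear k C] [FiniteDimensional E K]

section ext

variable [HasExt.{w₁} (ModObj k E C)] [HasExt.{w₂} (ModObj k K C)]

omit [HasExt.{w₂} (ModObj k K C)] in
lemma ext_of_retract {M N N' : ModObj k E C} (r : Retract N N') (n : ℕ)
    [h : Subsingleton (Ext.{w₁} M N' n)] : Subsingleton (Ext.{w₁} M N n) := by
  refine ⟨fun x y => ?_⟩
  have key : ∀ x : Ext.{w₁} M N n, x = 0 := by
    intro x
    have h1 : (x.comp (Ext.mk₀ r.i) (add_zero n)).comp (Ext.mk₀ r.r) (add_zero n) = x := by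
      rw [Ext.comp_assoc_of_third_deg_zero, Ext.mk₀_comp_mk₀, r.retract]
      exact Ext.comp_mk₀_id x
    rw [← h1, Subsingleton.elim (x.comp (Ext.mk₀ r.i) (add_zero n)) 0, Ext.zero_comp]
  rw [key x, key y]

/-- Vanishing of Ext descends. -/
theorem ext_of_ind (M N : ModObj k E C) (n : ℕ)
    (h : Subsingleton (Ext.{w₂} ((indE k E K C).obj M) ((indE k E K C).obj N) n)) :
    Subsingleton (Ext.{w₁} M N n) := by
  have h1 : Subsingleton (Ext.{w₁} M ((resE k E K C).obj ((indE k E K C).obj N)) n) :=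
    (extInd M ((indE k E K C).obj N) n).symm.toEquiv.subsingleton
  exact ext_of_retract (exists_retract_res_ind (K := K) N).some n

/-- Vanishing of Ext between an object over the base field and a `K`-object -/
theorem ext_res_of_ind (M : ModObj k E C) (N : ModObj k K C) (n : ℕ)
    (h : Subsingleton (Ext.{w₂} ((indE k E K C).obj M) N n)) :
    Subsingleton (Ext.{w₁} M ((resE k E K C).obj N) n) :=
  (extInd M N n).symm.toEquiv.subsingleton

end ext

section hom

/-- the underlying morphism of the map on induced objects -/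
lemma tmk_ind_map {M N : ModObj k E C} (f : M ⟶ N) (v : K) :
    tmk M v ≫ ModObj.homPt ((indE k E K C).map f) = ModObj.homPt f ≫ tmk N v :=
  tmk_tmapL f v

lemma tmk_one_injective {X : C} {N : ModObj k E C} {a b : X ⟶ N.pt}
    (h : a ≫ tmk N (1 : K) = b ≫ tmk N (1 : K)) : a = b := by
  obtain ⟨π, hπ⟩ := exists_proj E K
  have h1 : tmk N (1 : K) ≫ ModObj.homPt (indProj (k := k) N π) = N.act (π 1) :=
    congrArg ModObj.homPt (indIncl_indProj N π 1)
  rw [hπ, ModObj.act_one] at h1
  have h2 : (a ≫ tmk N (1 : K)) ≫ ModObj.homPt (indProj (k := k) N π) =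
      (b ≫ tmk N (1 : K)) ≫ ModObj.homPt (indProj (k := k) N π) := by rw [h]
  rw [Category.assoc, Category.assoc] at h2
  have h3 : ∀ c : X ⟶ N.pt, c ≫ tmk N (1 : K) ≫ ModObj.homPt (indProj (k := k) N π) = c := by
    intro c
    exact (congrArg (c ≫ ·) h1).trans (Category.comp_id c)
  exact (h3 a).symm.trans (h2.trans (h3 b))

instance ind_faithful : (indE k E K C).Faithful where
  map_injective {M N f g} h := by
    refine ModObj.hom_ext (tmk_one_injective (K := K) ?_)
    rw [← tmk_ind_map, ← tmk_ind_map, h]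

theorem hom_of_ind (M N : ModObj k E C)
    (h : ∀ f : (indE k E K C).obj M ⟶ (indE k E K C).obj N, f = 0) (f : M ⟶ N) : f = 0 := by
  refine (indE k E K C).map_injective ?_
  rw [h ((indE k E K C).map f), Functor.map_zero]

theorem finite_hom_of_ind (M N : ModObj k E C)
    (h : Module.Finite k ((indE k E K C).obj M ⟶ (indE k E K C).obj N)) :
    Module.Finite k (M ⟶ N) :=
  Module.Finite.of_injective ((indE k E K C).mapLinearMap k) (indE k E K C).map_injective

/-- If the endomorphisms of `K ⊗_E M` are the scalars, so are the endomorphisms of `M`. -/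
theorem exists_act_of_ind (M : ModObj k E C) (h0 : ¬ IsZero M.pt)
    (h : ∀ f : (indE k E K C).obj M ⟶ (indE k E K C).obj M, ∃ x : K,
      ModObj.homPt f = ((indE k E K C).obj M).act x) (f : M ⟶ M) :
    ∃ e : E, ModObj.homPt f = M.act e := by
  obtain ⟨x, hx⟩ := h ((indE k E K C).map f)
  have h1 : ModObj.homPt f ≫ tmk M (1 : K) = tmk M x := by
    rw [← tmk_ind_map, hx]
    refine (tmk_indAct M x 1).trans ?_
    rw [mul_one]
  by_cases hx1 : ∃ e : E, algebraMap E K e = x
  · obtain ⟨e, rfl⟩ := hx1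
    refine ⟨e, tmk_one_injective (K := K) ?_⟩
    rw [h1, ← tmk_smul, Algebra.smul_def, mul_one]
  · exfalso
    have hx2 : x ∉ LinearMap.range (Algebra.linearMap E K) := fun ⟨e, he⟩ => hx1 ⟨e, he⟩
    obtain ⟨π, hπx, hπ⟩ := Submodule.exists_le_ker_of_notMem hx2
    have h10 : π 1 = 0 := hπ ⟨1, by simp⟩
    refine h0 ?_
    rw [IsZero.iff_id_eq_zero]
    have h2 : ∀ v : K, tmk M v ≫ ModObj.homPt (indProj (k := k) M π) = M.act (π v) := fun v =>
      congrArg ModObj.homPt (indIncl_indProj M π v)
    have h3 : M.act (π x) = 0 := by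
      rw [← h2, ← h1, Category.assoc, h2, h10, ModObj.act_zero]
      exact comp_zero
    have h4 : 𝟙 M.pt = M.act (π x) ≫ M.act ((π x)⁻¹) := by
      rw [← ModObj.act_mul, mul_inv_cancel₀ hπx, ModObj.act_one]
    rw [h4, h3, zero_comp]

end hom

end Orl.Gal
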