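import Pool.Agent.Work.MP_a6e60d_ag.Gal.Dec

/-!
# Extension groups between restrictions of scalars along a Galois extension
-/

open CategoryTheory Limits Abelian

attribute [-instance] CategoryTheory.catToReflQuiver

namespace Orl.Gal

open Orl.LF

universe w₁ w₂ w v' u'

attribute [local instance] Abelian.hasFiniteBiproducts

variable {k : Type*} [Field k] {E : Type*} {K : Type w} [Field E] [Field K] [Algebra k E]
  [Algebra k K] [Algebra E K] [IsScalarTower k E K]
variable {C : Type u'} [Category.{v'} C]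

section conj

variable [Preadditive C] [Linear k C]

variable (k C) in
/-- conjugation is an equivalence -/
def conjEquiv (g : K ≃ₐ[E] K) : ModObj k K C ≌ ModObj k K C where
  functor := conj k C g
  inverse := conj k C g.symm
  unitIso := NatIso.ofComponents
    (fun M =>
      { hom := ModObj.homMk (M := M) (N := (conj k C g.symm).obj ((conj k C g).obj M)) (𝟙 M.pt)
          fun x => by
            change M.act x ≫ 𝟙 _ = 𝟙 _ ≫ M.act (g (g.symm x))
            rw [g.apply_symm_apply, Category.id_comp, Category.comp_id]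
        inv := ModObj.homMk (M := (conj k C g.symm).obj ((conj k C g).obj M)) (N := M) (𝟙 M.pt)
          fun x => by
            change M.act (g (g.symm x)) ≫ 𝟙 _ = 𝟙 _ ≫ M.act x
            rw [g.apply_symm_apply, Category.id_comp, Category.comp_id]
        hom_inv_id := ModObj.hom_ext (Category.comp_id _)
        inv_hom_id := ModObj.hom_ext (Category.comp_id _) })
    (fun {M N} f => ModObj.hom_ext
      ((Category.comp_id (ModObj.homPt f)).trans (Category.id_comp (ModObj.homPt f)).symm))
  counitIso := NatIso.ofComponents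
    (fun M =>
      { hom := ModObj.homMk (M := (conj k C g).obj ((conj k C g.symm).obj M)) (N := M) (𝟙 M.pt)
          fun x => by
            change M.act (g.symm (g x)) ≫ 𝟙 _ = 𝟙 _ ≫ M.act x
            rw [g.symm_apply_apply, Category.id_comp, Category.comp_id]
        inv := ModObj.homMk (M := M) (N := (conj k C g).obj ((conj k C g.symm).obj M)) (𝟙 M.pt)
          fun x => by
            change M.act x ≫ 𝟙 _ = 𝟙 _ ≫ M.act (g.symm (g x))
            rw [g.symm_apply_apply, Category.id_comp, Category.comp_id]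
        hom_inv_id := ModObj.hom_ext (Category.comp_id _)
        inv_hom_id := ModObj.hom_ext (Category.comp_id _) })
    (fun {M N} f => ModObj.hom_ext
      ((Category.comp_id (ModObj.homPt f)).trans (Category.id_comp (ModObj.homPt f)).symm))
  functor_unitIso_comp M := ModObj.hom_ext (Category.comp_id _)

end conj

variable [Abelian C] [Linear k C] [FiniteDimensional E K]

section ext

variable [HasExt.{w₁} (ModObj k E C)] [HasExt.{w₂} (ModObj k K C)]

/-- `Ext_E(M, res N) = Ext_K(K ⊗_E M, N)` -/
noncomputable def extInd (M : ModObj k E C) (N : ModObj k K C) (n : ℕ) :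
    Ext.{w₂} ((indE k E K C).obj M) N n ≃ₗ[k] Ext.{w₁} M ((resE k E K C).obj N) n :=
  Fdim.extAdjEquiv (indAdj k E K C) k M N n

/-- `Ext_K(g M, N) = Ext_K(M, g⁻¹ N)` -/
noncomputable def extConj (g : K ≃ₐ[E] K) (M N : ModObj k K C) (n : ℕ) :
    Ext.{w₂} ((conj k C g).obj M) N n ≃ₗ[k] Ext.{w₂} M ((conj k C g.symm).obj N) n :=
  Fdim.extAdjEquiv (L := conj k C g) (R := conj k C g.symm) (conjEquiv k C g).toAdjunction k M N n

variable [IsGalois E K]

/-- `Ext_K(K ⊗_E M, N) = ⊕ Ext_K(g M, N)` -/
noncomputable def extDec (M N : ModObj k K C) (n : ℕ) :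
    Ext.{w₂} ((indE k E K C).obj ((resE k E K C).obj M)) N n ≃ₗ[k]
      ∀ g : K ≃ₐ[E] K, Ext.{w₂} ((conj k C g).obj M) N n where
  toFun x g := (Ext.mk₀ (indIn M g)).comp x (zero_add n)
  invFun y := ∑ g, (Ext.mk₀ (indPr M g)).comp (y g) (zero_add n)
  left_inv x := by
    simp only [Ext.mk₀_comp_mk₀_assoc]
    have h : ∑ g : K ≃ₐ[E] K, (Ext.mk₀ (indPr M g ≫ indIn M g)).comp x (zero_add n) =
        (Ext.mk₀ (∑ g : K ≃ₐ[E] K, indPr M g ≫ indIn M g)).comp x (zero_add n) := by
      rw [Ext.mk₀_sum, Ext.sum_comp]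
    rw [h, sum_indPr_indIn]
    exact Ext.mk₀_id_comp x
  right_inv y := by
    funext g
    change (Ext.mk₀ (indIn M g)).comp (∑ h, (Ext.mk₀ (indPr M h)).comp (y h) (zero_add n))
      (zero_add n) = y g
    rw [Ext.comp_sum, Finset.sum_eq_single g]
    · rw [Ext.mk₀_comp_mk₀_assoc, indIn_indPr_self]
      exact Ext.mk₀_id_comp _
    · intro h _ hgh
      rw [Ext.mk₀_comp_mk₀_assoc, indIn_indPr_ne M hgh, Ext.mk₀_zero, Ext.zero_comp]
    · simp
  map_add' x y := by
    funext g
    exact Ext.comp_add _ _ _ _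
  map_smul' c x := by
    funext g
    exact Ext.comp_smul _ _ _ _

/-- **`Ext_E(res M, res N) = ⊕ Ext_K(g M, N)`**, the sum over the Galois group. -/
noncomputable def extGal (M N : ModObj k K C) (n : ℕ) :
    Ext.{w₁} ((resE k E K C).obj M) ((resE k E K C).obj N) n ≃ₗ[k]
      ∀ g : K ≃ₐ[E] K, Ext.{w₂} ((conj k C g).obj M) N n :=
  (extInd ((resE k E K C).obj M) N n).symm.trans (extDec M N n)

theorem ext_res_subsingleton (M N : ModObj k K C) (n : ℕ)
    (h : ∀ g : K ≃ₐ[E] K, Subsingleton (Ext.{w₂} ((conj k C g).obj M) N n)) :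
    Subsingleton (Ext.{w₁} ((resE k E K C).obj M) ((resE k E K C).obj N) n) :=
  (extGal M N n).toEquiv.subsingleton

theorem ext_res_subsingleton' (M N : ModObj k K C) (n : ℕ)
    (h : ∀ g : K ≃ₐ[E] K, Subsingleton (Ext.{w₂} M ((conj k C g).obj N) n)) :
    Subsingleton (Ext.{w₁} ((resE k E K C).obj M) ((resE k E K C).obj N) n) :=
  ext_res_subsingleton M N n fun g => by
    have := h g.symm
    exact (extConj g M N n).toEquiv.subsingleton

end ext

end Orl.Gal
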