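import Pool.Agent.Work.MP_a6e60d_ag.LF.Repn
import Pool.Agent.Work.MP_f714fc_ag.Abs.ExtAdj

/-!
# Restriction and extension of scalars for module objects
-/

open CategoryTheory Limits

attribute [-instance] CategoryTheory.catToReflQuiver

namespace Orl.Gal

open Orl.LF

universe v' u'

attribute [local instance] Abelian.hasFiniteBiproducts

section res

variable {k : Type*} [Field k] {E K : Type*} [Field E] [Field K] [Algebra k E] [Algebra k K]
variable {C : Type u'} [Category.{v'} C]

section preadd

variable [Preadditive C] [Linear k C]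

/-- restriction of the scalars of a module object along a `k`-algebra homomorphism -/
def resObj (φ : E →ₐ[k] K) (M : ModObj k K C) : ModObj k E C :=
  ModObj.mk' M.pt (fun e => M.act (φ e)) (by rw [map_one, ModObj.act_one])
    (fun e e' => by rw [map_mul, ModObj.act_mul]) (fun e e' => by rw [map_add, ModObj.act_add])
    (fun r e => by rw [map_smul, ModObj.act_smul])

lemma resObj_pt (φ : E →ₐ[k] K) (M : ModObj k K C) : (resObj φ M).pt = M.pt := rfl

lemma resObj_act (φ : E →ₐ[k] K) (M : ModObj k K C) (e : E) :
    (resObj φ M).act e = M.act (φ e) := rfl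

variable (C) in
/-- restriction of scalars along a `k`-algebra homomorphism -/
def resF (φ : E →ₐ[k] K) : ModObj k K C ⥤ ModObj k E C where
  obj M := resObj φ M
  map {M N} f := ModObj.homMk (M := resObj φ M) (N := resObj φ N) (ModObj.homPt (M := M) (N := N) f)
    fun e => ModObj.act_homPt (M := M) (N := N) f (φ e)
  map_id _ := rfl
  map_comp _ _ := rfl

lemma resF_obj (φ : E →ₐ[k] K) (M : ModObj k K C) : (resF C φ).obj M = resObj φ M := rfl

lemma homPt_resF_map (φ : E →ₐ[k] K) {M N : ModObj k K C} (f : M ⟶ N) :
    ModObj.homPt ((resF C φ).map f) = ModObj.homPt (M := M) (N := N) f := rfl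

instance (φ : E →ₐ[k] K) : (resF C φ).Additive where
  map_add := rfl

instance (φ : E →ₐ[k] K) : (resF C φ).Linear k where
  map_smul _ _ := rfl

instance (φ : E →ₐ[k] K) : (resF C φ).Faithful where
  map_injective {M N f g} h := ModObj.hom_ext (by
    rw [← homPt_resF_map φ f, h, homPt_resF_map φ g])

end preadd

section ab

variable [Abelian C] [Linear k C]

lemma resF_shortExact (φ : E →ₐ[k] K) {S : ShortComplex (ModObj k K C)} (hS : S.ShortExact) :
    (S.map (resF C φ)).ShortExact := by
  rw [shortExact_iff]
  rintro ⟨⟩
  exact (shortExact_iff S).1 hS (SingleObj.star K)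

lemma resF_exact (φ : E →ₐ[k] K) : PreservesFiniteLimits (resF C φ) ∧
    PreservesFiniteColimits (resF C φ) :=
  ((resF C φ).exact_tfae.out 0 3).1 fun _ hS => resF_shortExact φ hS

instance (φ : E →ₐ[k] K) : PreservesFiniteLimits (resF C φ) := (resF_exact φ).1

instance (φ : E →ₐ[k] K) : PreservesFiniteColimits (resF C φ) := (resF_exact φ).2

end ab

end res

end Orl.Gal
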